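import Pool.Agent.helper17.MLG.Spec

/-!
# Row mlg:SSA (MP_84f457_gt), helper88: the profile is superlinear at 0 and strictly subadditive
-/

set_option autoImplicit false

namespace Pool.Agent.MLG

open MeasureTheory Set Filter Topology Module
open scoped ENNReal ContDiff

theorem SSA_calc {f : ℝ → ℝ} (hc : ConcaveOn ℝ (Ioi 0) f)
    (h1 : ∀ K : ℝ, ∃ s : ℝ, 0 < s ∧ ∀ v, 0 < v → v ≤ s → K * v ≤ f v) {v w : ℝ} (hv : 0 < v) (hw : 0 < w) :
    v / (v + w) * f (v + w) < f v := by
  set F := f (v + w) with hF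
  obtain ⟨s₀, hs₀, hs⟩ := h1 (F / (v + w) + 1)
  set s := min s₀ (v / 2) with hsd
  have hs0 : 0 < s := lt_min hs₀ (by linarith)
  have hsv : s ≤ v / 2 := min_le_right _ _
  have hfs := hs s hs0 (min_le_left _ _)
  have hms : 0 < v + w - s := by linarith
  have hm : 0 < v + w := by linarith
  have hcc := hc.2 (show s ∈ Ioi (0 : ℝ) from hs0) (show v + w ∈ Ioi (0 : ℝ) from hm)
    (show 0 ≤ w / (v + w - s) by positivity) (show 0 ≤ (v - s) / (v + w - s) from div_nonneg (by linarith) hms.le)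
    (by field_simp; ring)
  have e : w / (v + w - s) * s + (v - s) / (v + w - s) * (v + w) = v := by
    field_simp
    ring
  simp only [smul_eq_mul] at hcc
  rw [e, ← hF] at hcc
  refine lt_of_lt_of_le ?_ hcc
  have h2 : w / (v + w - s) * ((F / (v + w) + 1) * s) ≤ w / (v + w - s) * f s :=
    mul_le_mul_of_nonneg_left hfs (by positivity)
  refine lt_of_lt_of_le ?_ (add_le_add_left h2 _)
  have h3 : w / (v + w - s) * ((F / (v + w) + 1) * s) + (v - s) / (v + w - s) * F - v / (v + w) * F =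
      w * s / (v + w - s) := by
    field_simp
    ring
  have h4 : 0 < w * s / (v + w - s) := by positivity
  linarith

theorem SSA (hCON : CON_stmt) (hISO : ISO_stmt) : SSA_stmt := by
  intro V _ _ _ _ _ _ hL hn
  obtain ⟨hconc, hmono, hprof⟩ := hCON V hL hn
  obtain ⟨κ, C, r₀, hκ, hC, hr₀, hiso⟩ := hISO V hL
  have h1 : ∀ K : ℝ, ∃ s : ℝ, 0 < s ∧ ∀ v, 0 < v → v ≤ s → K * v ≤ Ip V v := by
    intro K
    set r := min r₀ (1 / (C * (|K| + 1))) with hr
    have hr0 : 0 < r := lt_min hr₀ (by positivity)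
    have hCr : 0 < C * r := mul_pos hC hr0
    refine ⟨κ * r ^ finrank ℝ V, by positivity, fun v hv hvs => ?_⟩
    have h2 : ENNReal.ofReal (v / (C * r)) ≤ prof V v := by
      refine le_iInf₂ fun A hA => le_iInf fun hvA => ?_
      have h3 := hiso A hA r hr0 (min_le_left _ _) (by rw [hvA]; exact ENNReal.ofReal_le_ofReal hvs)
      rw [hvA] at h3
      rw [ENNReal.ofReal_div_of_pos hCr]
      refine ENNReal.div_le_of_le_mul ?_
      rwa [mul_comm]
    rw [hprof v hv] at h2
    have hIp0 : 0 ≤ Ip V v := ENNReal.toReal_nonneg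
    have h4 := (ENNReal.ofReal_le_ofReal_iff hIp0).1 h2
    refine le_trans ?_ h4
    rw [le_div_iff₀ hCr]
    have h5 : C * r ≤ 1 / (|K| + 1) := by
      have h6 : r ≤ 1 / (C * (|K| + 1)) := min_le_right _ _
      have h7 := mul_le_mul_of_nonneg_left h6 hC.le
      refine h7.trans (le_of_eq ?_)
      field_simp
    have h8 : K * (C * r) ≤ 1 := by
      have h9 : K * (C * r) ≤ |K| * (C * r) := mul_le_mul_of_nonneg_right (le_abs_self K) hCr.le
      have h10 : |K| * (C * r) ≤ |K| * (1 / (|K| + 1)) := mul_le_mul_of_nonneg_left h5 (abs_nonneg _)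
      have h11 : |K| * (1 / (|K| + 1)) ≤ 1 := by
        rw [mul_one_div, div_le_one (by positivity)]
        linarith
      linarith
    calc K * v * (C * r) = (K * (C * r)) * v := by ring
      _ ≤ 1 * v := mul_le_mul_of_nonneg_right h8 hv.le
      _ = v := one_mul v
  refine ⟨h1, fun v w hv hw => ?_⟩
  have a1 := SSA_calc hconc h1 hv hw
  have a2 := SSA_calc hconc h1 hw hv
  rw [add_comm w v] at a2
  have hm : v + w ≠ 0 := by positivity
  have e : v / (v + w) * Ip V (v + w) + w / (v + w) * Ip V (v + w) = Ip V (v + w) := by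
    field_simp
  linarith

end Pool.Agent.MLG
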