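import Pool.Agent.helper17.MLG.Spec

/-!
# Row mlg:SUB (MP_84f457_gt), helper88: the total variation is submodular
-/

set_option autoImplicit false
set_option linter.unusedSectionVars false

namespace Pool.Agent.MLG

open MeasureTheory Set Filter Topology Module
open scoped ENNReal ContDiff

theorem SUB_liminf (a b : ℕ → ℝ≥0∞) (c : ℝ≥0∞) (h : ∀ k, a k + b k ≤ c) :
    liminf a atTop + liminf b atTop ≤ c := by
  rw [Filter.liminf_eq_iSup_iInf_of_nat, Filter.liminf_eq_iSup_iInf_of_nat]
  have hm : ∀ f : ℕ → ℝ≥0∞, Monotone fun n => ⨅ i ≥ n, f i := by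
    intro f n m hnm
    exact le_iInf₂ fun i hi => iInf₂_le i (le_trans hnm hi)
  rw [ENNReal.iSup_add_iSup_of_monotone (hm a) (hm b)]
  refine iSup_le fun n => ?_
  exact (add_le_add (iInf₂_le n le_rfl) (iInf₂_le n le_rfl)).trans (h n)

section

variable {V : Type} [NormedAddCommGroup V] [InnerProductSpace ℝ V] [FiniteDimensional ℝ V] [MeasurableSpace V]
  [BorelSpace V] [Group V]

/-- the smooth case -/
theorem SUB_smooth (hTVS : TVS_stmt) (hGRR : GRR_stmt) (hL : IsLie V) (f h : V → ℝ) (hf : ContDiff ℝ ∞ f)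
    (hh : ContDiff ℝ ∞ h) (hf1 : IsU f) (hh1 : IsU h) :
    tv (fun x => f x * h x) + tv (fun x => f x + h x - f x * h x) ≤ tv f + tv h := by
  obtain ⟨-, hgc, hgm, hga, hgch, -, -, -⟩ := hGRR V hL
  have hfd : Differentiable ℝ f := hf.differentiable (by simp)
  have hhd : Differentiable ℝ h := hh.differentiable (by simp)
  rw [hTVS V hL (fun x => f x * h x) (hf.mul hh), hTVS V hL (fun x => f x + h x - f x * h x) ((hf.add hh).sub (hf.mul hh)),
    hTVS V hL f hf, hTVS V hL h hh]
  have hm1 : Measurable fun x => ‖gr (fun y => f y * h y) x‖ₑ :=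
    ((hgc _ ((hf.mul hh).of_le (by simp))).measurable).enorm
  have hm2 : Measurable fun x => ‖gr f x‖ₑ := ((hgc _ (hf.of_le (by simp))).measurable).enorm
  rw [← lintegral_add_left hm1, ← lintegral_add_left hm2]
  refine lintegral_mono fun x => ?_
  have e1 := hgm f h hfd hhd x
  have e2 : gr (fun y => f y + h y - f y * h y) x = (1 - h x) • gr f x + (1 - f x) • gr h x := by
    have h1f : Differentiable ℝ fun y => 1 - f y := hfd.const_sub 1
    have a1 : (fun y => f y + h y - f y * h y) = fun y => f y + h y * (1 - f y) := by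
      funext y
      ring
    have a2 := hga f (fun y => h y * (1 - f y)) hfd (hhd.mul h1f) x
    have a3 := hgm h (fun y => 1 - f y) hhd h1f x
    have a4 := hgch f (fun s => 1 - s) hfd (by fun_prop) x
    have a5 : deriv (fun s : ℝ => 1 - s) (f x) = -1 := by
      rw [deriv_const_sub]
      simp
    rw [a5] at a4
    rw [a1, a2, a3, a4]
    module
  have b1 : ‖gr (fun y => f y * h y) x‖ ≤ f x * ‖gr h x‖ + h x * ‖gr f x‖ := by
    rw [e1]
    refine (norm_add_le _ _).trans (le_of_eq ?_)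
    rw [norm_smul, norm_smul, Real.norm_of_nonneg (hf1.nonneg x), Real.norm_of_nonneg (hh1.nonneg x)]
  have b2 : ‖gr (fun y => f y + h y - f y * h y) x‖ ≤ (1 - h x) * ‖gr f x‖ + (1 - f x) * ‖gr h x‖ := by
    rw [e2]
    refine (norm_add_le _ _).trans (le_of_eq ?_)
    rw [norm_smul, norm_smul, Real.norm_of_nonneg (sub_nonneg.2 (hf1.le_one x)),
      Real.norm_of_nonneg (sub_nonneg.2 (hh1.le_one x))]
  have b3 : ‖gr (fun y => f y * h y) x‖ + ‖gr (fun y => f y + h y - f y * h y) x‖ ≤ ‖gr f x‖ + ‖gr h x‖ := by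
    linarith
  change ‖gr (fun y => f y * h y) x‖ₑ + ‖gr (fun y => f y + h y - f y * h y) x‖ₑ ≤ ‖gr f x‖ₑ + ‖gr h x‖ₑ
  simp only [← ofReal_norm]
  rw [← ENNReal.ofReal_add (norm_nonneg _) (norm_nonneg _), ← ENNReal.ofReal_add (norm_nonneg _) (norm_nonneg _)]
  exact ENNReal.ofReal_le_ofReal b3

theorem SUB_L1 {f h : ℕ → V → ℝ} {u w : V → ℝ} {F : ℕ → V → ℝ} {G : V → ℝ} (hf : L1 f u) (hh : L1 h w)
    (hfm : ∀ k, Measurable (f k)) (hum : Measurable u)
    (hle : ∀ k x, |F k x - G x| ≤ |f k x - u x| + |h k x - w x|) : L1 F G := by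
  intro C hC
  have h1 := (hf C hC).add (hh C hC)
  rw [add_zero] at h1
  refine tendsto_of_tendsto_of_tendsto_of_le_of_le tendsto_const_nhds h1 (fun k => bot_le) fun k => ?_
  have hm : Measurable fun x => ENNReal.ofReal |f k x - u x| := by
    have := (hfm k).sub hum
    exact (this.abs).ennreal_ofReal
  simp only
  rw [← lintegral_add_left hm]
  refine lintegral_mono fun x => ?_
  simp only
  rw [← ENNReal.ofReal_add (abs_nonneg _) (abs_nonneg _)]
  exact ENNReal.ofReal_le_ofReal (hle k x)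

theorem SUB_mul {u w : V → ℝ} (hu : IsU u) (hw : IsU w) : IsU fun x => u x * w x where
  meas := hu.meas.mul hw.meas
  nonneg := fun x => mul_nonneg (hu.nonneg x) (hw.nonneg x)
  le_one := fun x => mul_le_one₀ (hu.le_one x) (hw.nonneg x) (hw.le_one x)

theorem SUB_add {u w : V → ℝ} (hu : IsU u) (hw : IsU w) : IsU fun x => u x + w x - u x * w x where
  meas := (hu.meas.add hw.meas).sub (hu.meas.mul hw.meas)
  nonneg := fun x => by nlinarith [hu.nonneg x, hw.nonneg x, hu.le_one x, hw.le_one x, mul_nonneg (hu.nonneg x) (sub_nonneg.2 (hw.le_one x))]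
  le_one := fun x => by nlinarith [mul_nonneg (sub_nonneg.2 (hu.le_one x)) (sub_nonneg.2 (hw.le_one x))]

end

theorem SUB (hAPX : APX_stmt) (hTVS : TVS_stmt) (hLSC : LSC_stmt) (hGRR : GRR_stmt) : SUB_stmt := by
  intro V _ _ _ _ _ _ hL u w hu hw
  obtain ⟨f, hf, hfl⟩ := hAPX V hL u hu
  obtain ⟨h, hh, hhl⟩ := hAPX V hL w hw
  have l1 : L1 (fun k x => f k x * h k x) (fun x => u x * w x) := by
    refine SUB_L1 hfl hhl (fun k => (hf k).2.1.meas) hu.meas fun k x => ?_
    have e : f k x * h k x - u x * w x = f k x * (h k x - w x) + (f k x - u x) * w x := by ring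
    rw [e]
    refine (abs_add_le _ _).trans ?_
    rw [abs_mul, abs_mul, abs_of_nonneg ((hf k).2.1.nonneg x), abs_of_nonneg (hw.nonneg x)]
    have a1 := mul_le_of_le_one_left (abs_nonneg (h k x - w x)) ((hf k).2.1.le_one x)
    have a2 := mul_le_of_le_one_right (abs_nonneg (f k x - u x)) (hw.le_one x)
    linarith
  have l2 : L1 (fun k x => f k x + h k x - f k x * h k x) (fun x => u x + w x - u x * w x) := by
    refine SUB_L1 hfl hhl (fun k => (hf k).2.1.meas) hu.meas fun k x => ?_
    have e : f k x + h k x - f k x * h k x - (u x + w x - u x * w x) =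
        (f k x - u x) * (1 - w x) + (1 - f k x) * (h k x - w x) := by ring
    rw [e]
    refine (abs_add_le _ _).trans ?_
    have p1 := (hf k).2.1.nonneg x
    have p2 := hw.nonneg x
    rw [abs_mul, abs_mul, abs_of_nonneg (sub_nonneg.2 ((hf k).2.1.le_one x)), abs_of_nonneg (sub_nonneg.2 (hw.le_one x))]
    have a1 := mul_le_of_le_one_left (abs_nonneg (h k x - w x)) (show 1 - f k x ≤ 1 by linarith)
    have a2 := mul_le_of_le_one_right (abs_nonneg (f k x - u x)) (show 1 - w x ≤ 1 by linarith)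
    linarith
  have s1 := hLSC V hL (fun k x => f k x * h k x) (fun x => u x * w x) (fun k => SUB_mul (hf k).2.1 (hh k).2.1)
    (SUB_mul hu hw) l1
  have s2 := hLSC V hL (fun k x => f k x + h k x - f k x * h k x) (fun x => u x + w x - u x * w x)
    (fun k => SUB_add (hf k).2.1 (hh k).2.1) (SUB_add hu hw) l2
  refine (add_le_add s1 s2).trans (SUB_liminf _ _ _ fun k => ?_)
  refine (SUB_smooth hTVS hGRR hL (f k) (h k) (hf k).1 (hh k).1 (hf k).2.1 (hh k).2.1).trans ?_
  exact add_le_add (hf k).2.2 (hh k).2.2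

end Pool.Agent.MLG
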